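import Pool.Agent.W70.HR.Stm

/-!
Project HR: the coloured Maynard-Tao theorem with the right order of magnitude, from the weights
`S_WT` and the combinatorial statement `S_CS`.
-/

set_option autoImplicit false

open Finset

namespace Pool.Agent.W67.HR

open Pool.Agent.H361R2.PP
open Pool.Agent.W70.HR

/-- the rough indicator takes the values `0` and `1` -/
lemma rg01 (P : Finset ℕ) (a n : ℕ) : rg P a n = 1 ∨ rg P a n = 0 := by
  unfold rg
  split_ifs
  · exact Or.inl rfl
  · exact Or.inr rfl

/-- `rU` is the indicator of the `n` with all positions rough -/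
lemma rU_le (δ : ℝ) (X : ℕ) (U : Finset ℕ) (n : ℕ) : rU δ X U n ≤ 1 := by
  unfold rU
  apply Finset.prod_le_one
  · intro a _
    rcases rg01 (P1 (HH X) (JJ δ X)) a n with h | h <;> simp [h]
  · intro a _
    rcases rg01 (P1 (HH X) (JJ δ X)) a n with h | h <;> simp [h]

lemma rU_zero (δ : ℝ) (X : ℕ) (U : Finset ℕ) (n : ℕ)
    (h : ¬ ∀ a ∈ U, rg (P1 (HH X) (JJ δ X)) a n = 1) : rU δ X U n = 0 := by
  push Not at h
  obtain ⟨a, ha, h1⟩ := h
  unfold rU
  apply Finset.prod_eq_zero ha
  rcases rg01 (P1 (HH X) (JJ δ X)) a n with h | h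
  · exact absurd h h1
  · exact h

lemma Wm_pos (X : ℕ) (b : ℕ) (hb : b < Wm X) : (0 : ℝ) < (Wm X : ℝ) := by
  exact_mod_cast lt_of_le_of_lt (Nat.zero_le b) hb

theorem mt : S_WT → S_CS → S_MT := by
  classical
  intro hWT hCS T hT
  have hT0 : (0 : ℝ) < (T : ℝ) := by exact_mod_cast hT
  obtain ⟨K, hK, hW⟩ := hWT T (16 * (T : ℝ)) (1 / (100 * (T : ℝ))) hT (by positivity)
    (by positivity)
  refine ⟨K, hK, ?_⟩
  intro Λ N₁ hΛ
  obtain ⟨δ, hδ, hδ8, M₀, X₀, hM₀, hX⟩ := hW Λ N₁ hΛ
  refine ⟨δ, 1 / (8 * (T : ℝ) * M₀), hδ, hδ8, by positivity, max X₀ 1, ?_⟩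
  intro X hXX b hb
  have hX1 : 1 ≤ X := le_trans (le_max_right _ _) hXX
  obtain ⟨hV, hR, hB⟩ := hX X (le_trans (le_max_left _ _) hXX) b hb
  refine ⟨hV, hR, ?_⟩
  intro H hH hinj
  have hWm := Wm_pos X b hb
  have hXpos : (0 : ℝ) < (X : ℝ) := by exact_mod_cast hX1
  set B : Finset ℕ := (univ : Finset (Fin T × Fin K)).image (fun x => H x.1 x.2) with hBdef
  have hBsub : B ⊆ Bw Λ X b := by
    intro a ha
    rw [hBdef, Finset.mem_image] at ha
    obtain ⟨x, _, rfl⟩ := ha
    exact hH x.1 x.2
  have hBcard : B.card = T * K := by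
    rw [hBdef, Finset.card_image_of_injective _ hinj]
    simp
  have hmem : ∀ g i, H g i ∈ B := fun g i => by
    rw [hBdef, Finset.mem_image]
    exact ⟨(g, i), Finset.mem_univ _, rfl⟩
  obtain ⟨w, A, hw, hOm, hsum, h1, h2⟩ := hB B hBsub hBcard
  have hOmpos : 0 < Om δ X (T * K) := by
    unfold Om
    positivity
  have hA : 0 < A := lt_of_lt_of_le hOmpos hOm
  have hSP : ∀ a, SP X b a = (SI X b).filter (fun n => (n + a).Prime) := by
    intro a
    unfold SP SI
    rw [Finset.filter_filter]
  have hcs := hCS T K (SI X b) w (fun g i n => (n + H g i).Prime) A (16 * (T : ℝ))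
    (1 / (100 * (T : ℝ))) hT hK (fun n hn => (hw n hn).1) hA le_rfl (by positivity)
    (by
      rw [mul_one_div, div_self (by positivity)])
    hsum
    (by
      intro g i
      have := h1 (H g i) (hmem g i)
      rw [hSP] at this
      convert this using 4)
    (by
      intro g i j hij
      have hne : H g i ≠ H g j := by
        intro he
        have := @hinj (g, i) (g, j) he
        exact hij (Prod.ext_iff.mp this).2
      have := h2 (H g i) (hmem g i) (H g j) (hmem g j) hne
      rw [hSP, Finset.filter_filter] at this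
      convert this using 4)
  -- upper bound of the sum by the number of hits
  have hub : ∑ n ∈ (SI X b).filter (fun n =>
      T ≤ 4 * ((univ : Finset (Fin T)).filter (fun g => ∃ i, (n + H g i).Prime)).card), w n ≤
      M₀ * (hits δ X b T K H : ℝ) := by
    have e1 : ∑ n ∈ (SI X b).filter (fun n =>
        T ≤ 4 * ((univ : Finset (Fin T)).filter (fun g => ∃ i, (n + H g i).Prime)).card), w n ≤
        ∑ n ∈ (SI X b).filter (fun n =>
        T ≤ 4 * ((univ : Finset (Fin T)).filter (fun g => ∃ i, (n + H g i).Prime)).card),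
          (if (∀ g i, rg (P1 (HH X) (JJ δ X)) (H g i) n = 1) then M₀ else 0) := by
      apply Finset.sum_le_sum
      intro n hn
      have hnS := (Finset.mem_filter.mp hn).1
      have hwn := (hw n hnS).2
      split_ifs with hr
      · calc w n ≤ M₀ * rU δ X B n := hwn
          _ ≤ M₀ * 1 := mul_le_mul_of_nonneg_left (rU_le δ X B n) hM₀.le
          _ = M₀ := mul_one _
      · have : rU δ X B n = 0 := by
          apply rU_zero
          intro hall
          exact hr (fun g i => hall _ (hmem g i))
        rw [this, mul_zero] at hwn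
        exact hwn
    refine le_trans e1 ?_
    rw [← Finset.sum_filter, Finset.sum_const, nsmul_eq_mul, mul_comm]
    apply le_of_eq
    congr 2
    unfold hits
    rw [Finset.filter_filter]
    congr 1
    ext n
    simp only [Finset.mem_filter]
    tauto
  have hcs' : A / (8 * (T : ℝ)) ≤ M₀ * (hits δ X b T K H : ℝ) := by
    refine le_trans (le_of_le_of_eq hcs (Finset.sum_congr ?_ (fun _ _ => rfl))) hub
    ext n
    simp only [Finset.mem_filter]
    refine and_congr_right (fun _ => ?_)
    constructor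
    · intro h
      convert h using 3
      ext g
      simp only [Finset.mem_filter]
    · intro h
      convert h using 3
      ext g
      simp only [Finset.mem_filter]
  calc 1 / (8 * (T : ℝ) * M₀) * Om δ X (T * K) ≤ 1 / (8 * (T : ℝ) * M₀) * A :=
        mul_le_mul_of_nonneg_left hOm (by positivity)
    _ = (A / (8 * (T : ℝ))) / M₀ := by field_simp
    _ ≤ (M₀ * (hits δ X b T K H : ℝ)) / M₀ := by gcongr
    _ = (hits δ X b T K H : ℝ) := by field_simp

end Pool.Agent.W67.HR
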